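import Pool.Agent.Q276.BA.Stm2

/-!
# Job N2 (project BA of helper276)
-/

set_option autoImplicit false

open MeasureTheory Set Filter Topology
open scoped BigOperators ENNReal

namespace Pool.Agent.Q214.BA

/-- weighted arithmetic-geometric mean -/
lemma quarter_le {x a : ℝ} (hx : 0 ≤ x) (ha : 0 < a) :
    x ^ (1 / 4 : ℝ) ≤ 1 / 4 * (a * x) + 3 / 4 * a ^ (-(1 / 3) : ℝ) := by
  have h := Real.geom_mean_le_arith_mean2_weighted (w₁ := 1 / 4) (w₂ := 3 / 4) (p₁ := a * x) (p₂ := a ^ (-(1 / 3) : ℝ))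
    (by norm_num) (by norm_num) (by positivity) (by positivity) (by norm_num)
  have e : (a * x) ^ (1 / 4 : ℝ) * (a ^ (-(1 / 3) : ℝ)) ^ (3 / 4 : ℝ) = x ^ (1 / 4 : ℝ) := by
    rw [Real.mul_rpow ha.le hx, ← Real.rpow_mul ha.le, mul_comm (a ^ (1 / 4 : ℝ)), mul_assoc, ← Real.rpow_add ha]
    norm_num
  rwa [e] at h

/-- the beta integral -/
lemma beta_le {n : ℕ} (hn : 1 ≤ n) :
    ∫ v in (0 : ℝ)..1, (1 - v) ^ (1 / 4 : ℝ) * v ^ (n - 1) ≤ (n : ℝ) ^ (-(5 / 4) : ℝ) := by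
  have hn0 : (0 : ℝ) < n := by exact_mod_cast hn
  have hn1 : (0 : ℝ) < (n : ℝ) + 1 := by positivity
  obtain ⟨a, ha⟩ : ∃ a : ℝ, a = ((n : ℝ) + 1) ^ (3 / 4 : ℝ) := ⟨_, rfl⟩
  have ha0 : 0 < a := by rw [ha]; positivity
  have hn' : ((n - 1 : ℕ) : ℝ) + 1 = n := by
    rw [Nat.cast_sub hn, Nat.cast_one]
    ring
  have hc1 : Continuous fun v : ℝ => (1 - v) ^ (1 / 4 : ℝ) * v ^ (n - 1) := by
    refine Continuous.mul (Continuous.rpow_const (by fun_prop) fun _ => Or.inr (by norm_num)) (by fun_prop)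
  have hc2 : Continuous fun v : ℝ => (1 / 4 * (a * (1 - v)) + 3 / 4 * a ^ (-(1 / 3) : ℝ)) * v ^ (n - 1) := by fun_prop
  have h1 : ∫ v in (0 : ℝ)..1, (1 - v) ^ (1 / 4 : ℝ) * v ^ (n - 1) ≤
      ∫ v in (0 : ℝ)..1, (1 / 4 * (a * (1 - v)) + 3 / 4 * a ^ (-(1 / 3) : ℝ)) * v ^ (n - 1) := by
    refine intervalIntegral.integral_mono_on (by norm_num) (hc1.intervalIntegrable _ _) (hc2.intervalIntegrable _ _) ?_
    intro v hv
    exact mul_le_mul_of_nonneg_right (quarter_le (by linarith [hv.2]) ha0) (pow_nonneg hv.1 _)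
  have h2 : ∫ v in (0 : ℝ)..1, (1 / 4 * (a * (1 - v)) + 3 / 4 * a ^ (-(1 / 3) : ℝ)) * v ^ (n - 1) =
      1 / 4 * a * (1 / n - 1 / (n + 1)) + 3 / 4 * a ^ (-(1 / 3) : ℝ) * (1 / n) := by
    have e1 : ∀ v : ℝ, (1 / 4 * (a * (1 - v)) + 3 / 4 * a ^ (-(1 / 3) : ℝ)) * v ^ (n - 1) =
        (1 / 4 * a + 3 / 4 * a ^ (-(1 / 3) : ℝ)) * v ^ (n - 1) - 1 / 4 * a * v ^ n := by
      intro v
      have : v ^ n = v ^ (n - 1) * v := by rw [← pow_succ, Nat.sub_add_cancel hn]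
      rw [this]
      ring
    simp only [e1]
    rw [intervalIntegral.integral_sub (Continuous.intervalIntegrable (by fun_prop) _ _)
      (Continuous.intervalIntegrable (by fun_prop) _ _), intervalIntegral.integral_const_mul, intervalIntegral.integral_const_mul,
      integral_pow, integral_pow, hn']
    simp only [one_pow, Nat.sub_add_cancel hn, zero_pow (by omega : n ≠ 0), zero_pow (by omega : n + 1 ≠ 0)]
    ring
  rw [h2] at h1
  refine h1.trans ?_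
  obtain ⟨y, hy⟩ : ∃ y : ℝ, y = ((n : ℝ) + 1) ^ (-(1 / 4) : ℝ) := ⟨_, rfl⟩
  have e2 : a ^ (-(1 / 3) : ℝ) = y := by
    rw [ha, hy, ← Real.rpow_mul hn1.le]
    norm_num
  have e3 : a * (1 / (n + 1)) = y := by
    rw [ha, hy, one_div, ← Real.rpow_neg_one ((n : ℝ) + 1), ← Real.rpow_add hn1]
    norm_num
  have e4 : 1 / 4 * a * (1 / n - 1 / (n + 1)) + 3 / 4 * a ^ (-(1 / 3) : ℝ) * (1 / n) = y * (1 / n) := by
    rw [e2]
    have : (1 : ℝ) / n - 1 / (n + 1) = 1 / (n + 1) * (1 / n) := by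
      field_simp
      ring
    rw [this]
    have : 1 / 4 * a * (1 / (n + 1) * (1 / n)) = 1 / 4 * (a * (1 / (n + 1))) * (1 / n) := by ring
    rw [this, e3]
    ring
  rw [e4]
  have h3 : y ≤ (n : ℝ) ^ (-(1 / 4) : ℝ) := by
    rw [hy]
    exact Real.rpow_le_rpow_of_nonpos hn0 (by linarith) (by norm_num)
  calc y * (1 / n) ≤ (n : ℝ) ^ (-(1 / 4) : ℝ) * (1 / n) := mul_le_mul_of_nonneg_right h3 (by positivity)
    _ = (n : ℝ) ^ (-(5 / 4) : ℝ) := by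
      have e6 : (1 : ℝ) / n = (n : ℝ) ^ (-1 : ℝ) := by rw [Real.rpow_neg_one, one_div]
      rw [e6, ← Real.rpow_add hn0]
      norm_num

theorem n2 : Pool.Agent.Q276.BA.S_N2a → Pool.Agent.Q276.BA.S_N2b → Pool.Agent.Q276.BA.S_N2 := by
  intro ha hb n t hn ht0 ht1
  rw [hb n t hn ht0 ht1]
  have hn0 : (0 : ℝ) < n := by exact_mod_cast hn
  obtain ⟨J, hJ⟩ : ∃ J : ℝ → ℝ, J = fun v => (1 - v) ^ (3 / 4 : ℝ) * v ^ (n - 1) * ((1 / (2 * Real.pi)) *
        ∫ θ in (0 : ℝ)..(2 * Real.pi),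
          ‖1 - ((Real.sqrt v * Real.sqrt t : ℝ) : ℂ) * Complex.exp (θ * Complex.I)‖ ^ (-(3 / 2) : ℝ)) := ⟨_, rfl⟩
  have hJ' : (∫ v in (0 : ℝ)..1, (1 - v) ^ (3 / 4 : ℝ) * v ^ (n - 1) * ((1 / (2 * Real.pi)) *
        ∫ θ in (0 : ℝ)..(2 * Real.pi),
          ‖1 - ((Real.sqrt v * Real.sqrt t : ℝ) : ℂ) * Complex.exp (θ * Complex.I)‖ ^ (-(3 / 2) : ℝ))) =
      ∫ v in (0 : ℝ)..1, J v := by rw [hJ]
  rw [hJ']
  have hc : Continuous fun v : ℝ => 1.2 * ((1 - v) ^ (1 / 4 : ℝ) * v ^ (n - 1)) := by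
    refine continuous_const.mul (Continuous.mul (Continuous.rpow_const (by fun_prop) fun _ => Or.inr (by norm_num)) (by fun_prop))
  have h1 : ∫ v in (0 : ℝ)..1, J v ≤ ∫ v in (0 : ℝ)..1, 1.2 * ((1 - v) ^ (1 / 4 : ℝ) * v ^ (n - 1)) := by
    by_cases hI : IntervalIntegrable J volume 0 1
    · refine intervalIntegral.integral_mono_on (by norm_num) hI (hc.intervalIntegrable _ _) ?_
      intro v hv
      rw [hJ]
      dsimp only
      rcases eq_or_lt_of_le hv.2 with h | h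
      · rw [h, sub_self, Real.zero_rpow (by norm_num), Real.zero_rpow (by norm_num)]
        simp
      · have h0 : 0 < 1 - v := by linarith
        have hvt : v * t ≤ v := by nlinarith [hv.1]
        have e1 : (Real.sqrt v * Real.sqrt t) ^ 2 = v * t := by
          rw [mul_pow, Real.sq_sqrt hv.1, Real.sq_sqrt ht0.le]
        have hρ0 : 0 ≤ Real.sqrt v * Real.sqrt t := by positivity
        have hρ1 : Real.sqrt v * Real.sqrt t < 1 := by
          refine lt_of_pow_lt_pow_left₀ 2 (by norm_num) ?_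
          rw [e1]
          linarith
        have h2 := ha _ hρ0 hρ1
        rw [e1] at h2
        have h3 : (1 - v * t) ^ (-(1 / 2) : ℝ) ≤ (1 - v) ^ (-(1 / 2) : ℝ) :=
          Real.rpow_le_rpow_of_nonpos h0 (by linarith) (by norm_num)
        have h4 : 0 ≤ (1 - v) ^ (3 / 4 : ℝ) * v ^ (n - 1) := mul_nonneg (Real.rpow_nonneg h0.le _) (pow_nonneg hv.1 _)
        calc _ ≤ (1 - v) ^ (3 / 4 : ℝ) * v ^ (n - 1) * (1.2 * (1 - v) ^ (-(1 / 2) : ℝ)) :=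
              mul_le_mul_of_nonneg_left (h2.trans (by linarith)) h4
          _ = 1.2 * (((1 - v) ^ (3 / 4 : ℝ) * (1 - v) ^ (-(1 / 2) : ℝ)) * v ^ (n - 1)) := by ring
          _ = _ := by
            rw [← Real.rpow_add h0]
            norm_num
    · rw [intervalIntegral.integral_undef hI]
      refine intervalIntegral.integral_nonneg (by norm_num) fun v hv => ?_
      have h0 : 0 ≤ 1 - v := by linarith [hv.2]
      exact mul_nonneg (by norm_num) (mul_nonneg (Real.rpow_nonneg h0 _) (pow_nonneg hv.1 _))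
  rw [intervalIntegral.integral_const_mul] at h1
  have h2 := beta_le hn
  have h3 : 0 ≤ (n : ℝ) ^ 2 * (1 - t) ^ (-(5 / 4) : ℝ) / t ^ (n - 1) := by
    have : 0 ≤ (1 - t) ^ (-(5 / 4) : ℝ) := Real.rpow_nonneg (by linarith) _
    positivity
  have e5 : (n : ℝ) ^ 2 * (n : ℝ) ^ (-(5 / 4) : ℝ) = (n : ℝ) ^ (3 / 4 : ℝ) := by
    rw [← Real.rpow_natCast, ← Real.rpow_add hn0]
    norm_num
  calc (n : ℝ) ^ 2 * (1 - t) ^ (-(5 / 4) : ℝ) / t ^ (n - 1) * ∫ v in (0 : ℝ)..1, J v ≤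
      (n : ℝ) ^ 2 * (1 - t) ^ (-(5 / 4) : ℝ) / t ^ (n - 1) * (1.2 * (n : ℝ) ^ (-(5 / 4) : ℝ)) :=
        mul_le_mul_of_nonneg_left (h1.trans (by linarith)) h3
    _ = 1.2 * ((n : ℝ) ^ 2 * (n : ℝ) ^ (-(5 / 4) : ℝ)) * (1 - t) ^ (-(5 / 4) : ℝ) / t ^ (n - 1) := by ring
    _ = _ := by rw [e5]

end Pool.Agent.Q214.BA
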