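import Pool.Agent.Q276.BA.Stm2

/-!
# Jobs N3, N4 (project BA of helper276)
-/

set_option autoImplicit false

open MeasureTheory Set Filter Topology
open scoped BigOperators ENNReal

namespace Pool.Agent.Q214.BA

open Pool.Agent.Q276.BA

/-! ### N4 -/

lemma eO_succ (n : ℕ) : eO (n + 1) = eO n * Real.exp (2 * (1 / (2 * (n : ℝ) + 1))) := by
  unfold eO
  rw [Finset.sum_range_succ, mul_add, Real.exp_add]

lemma exp_83 : (14.38 : ℝ) ≤ Real.exp (8 / 3) := by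
  have h1 : (2.718 : ℝ) ≤ Real.exp 1 := by have := Real.exp_one_gt_d9; linarith
  have h2 : Real.exp (8 / 3) ^ 3 = Real.exp 1 ^ 8 := by
    rw [← Real.exp_nat_mul, ← Real.exp_nat_mul]
    norm_num
  have h3 : (14.38 : ℝ) ^ 3 ≤ Real.exp (8 / 3) ^ 3 := by
    rw [h2]
    calc (14.38 : ℝ) ^ 3 ≤ 2.718 ^ 8 := by norm_num
      _ ≤ _ := pow_le_pow_left₀ (by norm_num) h1 8
  exact le_of_pow_le_pow_left₀ (by norm_num) (Real.exp_pos _).le h3

lemma eO_ge {n : ℕ} (hn : 2 ≤ n) : 2.876 * (2 * (n : ℝ) + 1) ≤ eO n := by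
  induction n, hn using Nat.le_induction with
  | base =>
    have h1 : eO 2 = Real.exp (8 / 3) := by
      unfold eO
      congr 1
      simp [Finset.sum_range_succ]
      norm_num
    rw [h1]
    have := exp_83
    push_cast
    linarith
  | succ n hn ih =>
    rw [eO_succ]
    have h0 : (0 : ℝ) < 2 * (n : ℝ) + 1 := by positivity
    have h1 : (2 * (n : ℝ) + 3) / (2 * n + 1) ≤ Real.exp (2 * (1 / (2 * (n : ℝ) + 1))) := by
      refine le_trans (le_of_eq ?_) (Real.add_one_le_exp _)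
      field_simp
      ring
    calc 2.876 * (2 * ((n + 1 : ℕ) : ℝ) + 1) = 2.876 * (2 * (n : ℝ) + 1) * ((2 * (n : ℝ) + 3) / (2 * n + 1)) := by
          push_cast
          field_simp
          ring
      _ ≤ _ := mul_le_mul ih h1 (by positivity) (Real.exp_pos _).le

theorem n4 : S_N4 := by
  constructor
  · intro n hn
    rcases Nat.lt_or_ge n 2 with h | h
    · have h1 : n = 1 := by omega
      subst h1
      have h2 : eO 1 = Real.exp 1 ^ 2 := by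
        unfold eO
        rw [← Real.exp_nat_mul]
        congr 1
        simp
      have h3 : (2.718 : ℝ) ≤ Real.exp 1 := by have := Real.exp_one_gt_d9; linarith
      rw [h2]
      push_cast
      nlinarith
    · have h1 := eO_ge h
      have h2 : (2 : ℝ) ≤ n := by exact_mod_cast h
      linarith
  · intro n hn hn2
    have hn0 : (1 : ℝ) ≤ n := by exact_mod_cast hn
    have h3 : (2.718 : ℝ) ≤ Real.exp 1 := by have := Real.exp_one_gt_d9; linarith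
    have hpos : (0 : ℝ) < 2 * (n : ℝ) + 1 := by positivity
    rcases Nat.lt_or_ge n 20000 with h | h
    · have h1 : (n : ℝ) ≤ 20000 := by exact_mod_cast h.le
      have h4 : Real.log (2 * (n : ℝ) + 1) ≤ 11 := by
        rw [Real.log_le_iff_le_exp hpos]
        have h5 : Real.exp 11 = Real.exp 1 ^ 11 := by
          rw [← Real.exp_nat_mul]
          norm_num
        rw [h5]
        calc 2 * (n : ℝ) + 1 ≤ 40001 := by linarith
          _ ≤ 2.718 ^ 11 := by norm_num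
          _ ≤ _ := pow_le_pow_left₀ (by norm_num) h3 11
      calc (2 * (n : ℝ) + 1) * Real.log (2 * n + 1) ≤ (2 * (n : ℝ) + 1) * 11 := mul_le_mul_of_nonneg_left h4 hpos.le
        _ ≤ 33 * n := by linarith
    · have h1 : (20000 : ℝ) ≤ n := by exact_mod_cast h
      have h2 : (n : ℝ) ≤ 5000000 := by exact_mod_cast hn2
      have h4 : Real.log (2 * (n : ℝ) + 1) ≤ 16.4 := by
        rw [Real.log_le_iff_le_exp hpos]
        have h5 : Real.exp 16.4 = Real.exp 1 ^ 16 * Real.exp 0.4 := by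
          rw [← Real.exp_nat_mul, ← Real.exp_add]
          norm_num
        have h6 : (1.4 : ℝ) ≤ Real.exp 0.4 := by
          have := Real.add_one_le_exp (0.4 : ℝ)
          linarith
        rw [h5]
        calc 2 * (n : ℝ) + 1 ≤ 10000001 := by linarith
          _ ≤ 2.718 ^ 16 * 1.4 := by norm_num
          _ ≤ _ := mul_le_mul (pow_le_pow_left₀ (by norm_num) h3 16) h6 (by norm_num) (by positivity)
      calc (2 * (n : ℝ) + 1) * Real.log (2 * n + 1) ≤ (2 * (n : ℝ) + 1) * 16.4 := mul_le_mul_of_nonneg_left h4 hpos.le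
        _ ≤ 33 * n := by linarith

/-! ### N3 -/

lemma QQ_cont (n : ℕ) (k : ℤ) : Continuous (QQ n k) := by
  unfold QQ qq pp
  fun_prop

lemma norm_ge {ρ : ℝ} (h0 : 0 ≤ ρ) (θ : ℝ) : 1 - ρ ≤ ‖1 - (ρ : ℂ) * Complex.exp (θ * Complex.I)‖ := by
  have h1 : ‖(ρ : ℂ) * Complex.exp (θ * Complex.I)‖ = ρ := by
    rw [norm_mul, Complex.norm_exp_ofReal_mul_I, mul_one, Complex.norm_real, Real.norm_of_nonneg h0]
  have h2 := norm_sub_norm_le (1 : ℂ) ((ρ : ℂ) * Complex.exp (θ * Complex.I))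
  rw [h1, norm_one] at h2
  exact h2

lemma ker_cont {n : ℕ} {t : ℝ} (ht0 : 0 < t) (ht1 : t < 1) :
    Continuous (Function.uncurry fun v θ : ℝ => ker2 n t (min v 1) θ) := by
  unfold Function.uncurry ker2
  have hs : Real.sqrt t < 1 := by
    rw [Real.sqrt_lt' one_pos]
    linarith
  refine Continuous.div ?_ ?_ fun p => ?_
  · fun_prop
  · fun_prop
  · have h1 : Real.sqrt (min p.1 1) ≤ 1 := by
      rw [Real.sqrt_le_left one_pos.le, one_pow]
      exact min_le_right _ _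
    have h2 : Real.sqrt (min p.1 1) * Real.sqrt t < 1 := by
      calc Real.sqrt (min p.1 1) * Real.sqrt t ≤ 1 * Real.sqrt t := mul_le_mul_of_nonneg_right h1 (Real.sqrt_nonneg _)
        _ < 1 := by rw [one_mul]; exact hs
    have h3 := norm_ge (ρ := Real.sqrt (min p.1 1) * Real.sqrt t) (by positivity) p.2
    have h4 : 0 < ‖1 - ((Real.sqrt (min p.1 1) * Real.sqrt t : ℝ) : ℂ) * Complex.exp (p.2 * Complex.I)‖ := by linarith
    exact (pow_pos h4 _).ne'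

lemma num_t {n : ℕ} (hn : 10000 ≤ n) {t : ℝ} (ht : t = 1 - 5 / (8 * n)) :
    1.2 * (n : ℝ) ^ (3 / 4 : ℝ) * (1 - t) ^ (-(5 / 4) : ℝ) / t ^ (n - 1) * (t⁻¹) ^ n ≤ 7.55 * (n : ℝ) ^ 2 := by
  have hnr : (10000 : ℝ) ≤ n := by exact_mod_cast hn
  have hn0 : (0 : ℝ) < n := by linarith
  have ht0 : 0 < t := by
    rw [ht, sub_pos, div_lt_one (by positivity)]
    linarith
  have e1 : 1 - t = (8 / 5 * (n : ℝ))⁻¹ := by
    rw [ht]
    field_simp
    ring
  have e2 : (1 - t) ^ (-(5 / 4) : ℝ) = (8 / 5 : ℝ) ^ (5 / 4 : ℝ) * (n : ℝ) ^ (5 / 4 : ℝ) := by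
    rw [e1, Real.inv_rpow (by positivity), Real.rpow_neg (by positivity), inv_inv, Real.mul_rpow (by norm_num) hn0.le]
  have e3 : (n : ℝ) ^ (3 / 4 : ℝ) * (n : ℝ) ^ (5 / 4 : ℝ) = (n : ℝ) ^ 2 := by
    rw [← Real.rpow_add hn0, ← Real.rpow_natCast]
    norm_num
  have e4 : (8 / 5 : ℝ) ^ (5 / 4 : ℝ) ≤ 1.8 := by
    refine le_of_pow_le_pow_left₀ (n := 4) (by norm_num) (by norm_num) ?_
    rw [← Real.rpow_natCast, ← Real.rpow_mul (by norm_num)]
    norm_num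
  have e5 : 1 / t ^ (n - 1) * (t⁻¹) ^ n = (t⁻¹) ^ (2 * n - 1) := by
    rw [one_div, ← inv_pow, ← pow_add]
    congr 1
    omega
  have e6 : t⁻¹ ≤ Real.exp (5 / (8 * n - 5)) := by
    have h1 : t⁻¹ = 5 / (8 * n - 5) + 1 := by
      have h2 : (8 * (n : ℝ) - 5) ≠ 0 := by linarith
      have h3 : t = (8 * n - 5) / (8 * n) := by rw [ht]; field_simp
      rw [h3, inv_div]
      field_simp
      ring
    rw [h1]
    exact Real.add_one_le_exp _
  have e7 : (t⁻¹) ^ (2 * n - 1) ≤ 3.495 := by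
    have h0 : (0 : ℝ) < 8 * n - 5 := by linarith
    have h1 : (t⁻¹) ^ (2 * n - 1) ≤ Real.exp 1.2501 := by
      calc (t⁻¹) ^ (2 * n - 1) ≤ Real.exp (5 / (8 * n - 5)) ^ (2 * n - 1) := pow_le_pow_left₀ (by positivity) e6 _
        _ = Real.exp (((2 * n - 1 : ℕ) : ℝ) * (5 / (8 * n - 5))) := by rw [← Real.exp_nat_mul]
        _ ≤ _ := by
          apply Real.exp_le_exp.2
          rw [Nat.cast_sub (by omega), ← mul_div_assoc, div_le_iff₀ h0]
          push_cast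
          linarith
    refine h1.trans (le_of_pow_le_pow_left₀ (n := 4) (by norm_num) (by norm_num) ?_)
    have h2 : Real.exp 1.2501 ^ 4 = Real.exp 1 ^ 5 * Real.exp 0.0004 := by
      rw [← Real.exp_nat_mul, ← Real.exp_nat_mul, ← Real.exp_add]
      norm_num
    have h3 : Real.exp 1 ≤ 2.7183 := by have := Real.exp_one_lt_d9; linarith
    have h4 : Real.exp 0.0004 ≤ 1.001 := by
      have h5 := Real.add_one_le_exp (-(0.0004 : ℝ))
      rw [Real.exp_neg] at h5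
      have h6 : 0 < Real.exp 0.0004 := Real.exp_pos _
      have h7 : (Real.exp 0.0004)⁻¹ * Real.exp 0.0004 = 1 := inv_mul_cancel₀ h6.ne'
      have h8 : 0.9996 * Real.exp 0.0004 ≤ 1 := by
        calc 0.9996 * Real.exp 0.0004 ≤ (Real.exp 0.0004)⁻¹ * Real.exp 0.0004 :=
              mul_le_mul_of_nonneg_right (by linarith) h6.le
          _ = 1 := h7
      linarith
    rw [h2]
    calc Real.exp 1 ^ 5 * Real.exp 0.0004 ≤ 2.7183 ^ 5 * 1.001 :=
          mul_le_mul (pow_le_pow_left₀ (Real.exp_pos _).le h3 5) h4 (Real.exp_pos _).le (by norm_num)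
      _ ≤ 3.495 ^ 4 := by norm_num
  have e8 : 1.2 * (n : ℝ) ^ (3 / 4 : ℝ) * (1 - t) ^ (-(5 / 4) : ℝ) / t ^ (n - 1) * (t⁻¹) ^ n =
      1.2 * (8 / 5 : ℝ) ^ (5 / 4 : ℝ) * ((n : ℝ) ^ (3 / 4 : ℝ) * (n : ℝ) ^ (5 / 4 : ℝ)) * (1 / t ^ (n - 1) * (t⁻¹) ^ n) := by
    rw [e2]
    ring
  rw [e8, e3, e5]
  have h1 : 0 ≤ (t⁻¹) ^ (2 * n - 1) := by positivity
  calc 1.2 * (8 / 5 : ℝ) ^ (5 / 4 : ℝ) * (n : ℝ) ^ 2 * (t⁻¹) ^ (2 * n - 1) ≤ 1.2 * 1.8 * (n : ℝ) ^ 2 * 3.495 :=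
        mul_le_mul (mul_le_mul_of_nonneg_right (mul_le_mul_of_nonneg_left e4 (by norm_num)) (by positivity)) e7 h1 (by positivity)
    _ ≤ _ := by nlinarith [sq_nonneg (n : ℝ)]

theorem n3 : S_N3 := by
  intro hN1 hN2 n hn
  have hnr : (10000 : ℝ) ≤ n := by exact_mod_cast hn
  have hn0 : (0 : ℝ) < n := by linarith
  obtain ⟨t, ht⟩ : ∃ t : ℝ, t = 1 - 5 / (8 * n) := ⟨_, rfl⟩
  have ht1 : t < 1 := by
    rw [ht]
    have : (0 : ℝ) < 5 / (8 * n) := by positivity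
    linarith
  have ht0 : 0 < t := by
    rw [ht, sub_pos, div_lt_one (by positivity)]
    linarith
  obtain ⟨F, hF⟩ : ∃ F : ℝ → ℝ, F = fun v => ∑ k ∈ Finset.Icc (-(n : ℤ)) n, (QQ n k v) ^ 2 := ⟨_, rfl⟩
  have hFc : Continuous F := by
    rw [hF]
    exact continuous_finsetSum _ fun k _ => (QQ_cont n k).pow 2
  have hF0 : ∀ v, 0 ≤ F v := fun v => by rw [hF]; exact Finset.sum_nonneg fun _ _ => sq_nonneg _
  obtain ⟨W, hW⟩ : ∃ W : ℝ → ℝ, W = fun v => (1 / (2 * Real.pi)) * ∫ θ in (0 : ℝ)..(2 * Real.pi), ker2 n t (min v 1) θ :=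
    ⟨_, rfl⟩
  have hWc : Continuous W := by
    rw [hW]
    exact continuous_const.mul (intervalIntegral.continuous_parametric_intervalIntegral_of_continuous' (ker_cont ht0 ht1) _ _)
  have hW1 : ∀ v ∈ Icc (0 : ℝ) 1, W v = (1 / (2 * Real.pi)) * ∫ θ in (0 : ℝ)..(2 * Real.pi), ker2 n t v θ := by
    intro v hv
    rw [hW]
    dsimp only
    rw [min_eq_left hv.2]
  have hti : 1 ≤ t⁻¹ := (one_le_inv₀ ht0).2 ht1.le
  have hFW : ∀ v ∈ Icc (0 : ℝ) 1, F v ≤ (t⁻¹) ^ n * W v := by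
    intro v hv
    have h1 := hN1 n t v (Finset.Icc (-(n : ℤ)) n) (by omega) ht0 ht1 hv.1 hv.2 (fun k hk => (Finset.mem_Icc.1 hk).2)
    rw [← hW1 v hv] at h1
    refine le_trans ?_ (mul_le_mul_of_nonneg_left h1 (by positivity))
    rw [hF, Finset.mul_sum]
    refine Finset.sum_le_sum fun k hk => ?_
    have h2 : (1 : ℝ) ≤ (t⁻¹) ^ n * t ^ (-k) := by
      have h3 : (t⁻¹) ^ n * t ^ (-k) = (t⁻¹) ^ ((n : ℤ) + k) := by
        rw [zpow_add₀ (inv_ne_zero ht0.ne'), zpow_natCast, inv_zpow' t k]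
      rw [h3]
      exact one_le_zpow₀ hti (by have := (Finset.mem_Icc.1 hk).1; omega)
    have h4 : 0 ≤ (QQ n k v) ^ 2 := sq_nonneg _
    calc (QQ n k v) ^ 2 = (QQ n k v) ^ 2 * 1 := (mul_one _).symm
      _ ≤ (QQ n k v) ^ 2 * ((t⁻¹) ^ n * t ^ (-k)) := mul_le_mul_of_nonneg_left h2 h4
      _ = _ := by ring
  have hw : Continuous fun v : ℝ => (1 - v) ^ (3 / 4 : ℝ) :=
    Continuous.rpow_const (by fun_prop) fun _ => Or.inr (by norm_num)
  -- the weighted integral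
  have hI : ∫ v in (0 : ℝ)..1, (1 - v) ^ (3 / 4 : ℝ) * F v ≤ 7.55 * (n : ℝ) ^ 2 := by
    have h1 : ∫ v in (0 : ℝ)..1, (1 - v) ^ (3 / 4 : ℝ) * F v ≤
        ∫ v in (0 : ℝ)..1, (t⁻¹) ^ n * ((1 - v) ^ (3 / 4 : ℝ) * W v) := by
      refine intervalIntegral.integral_mono_on (by norm_num) ((hw.mul hFc).intervalIntegrable _ _)
        ((continuous_const.mul (hw.mul hWc)).intervalIntegrable _ _) fun v hv => ?_
      have h2 : 0 ≤ (1 - v) ^ (3 / 4 : ℝ) := Real.rpow_nonneg (by linarith [hv.2]) _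
      calc (1 - v) ^ (3 / 4 : ℝ) * F v ≤ (1 - v) ^ (3 / 4 : ℝ) * ((t⁻¹) ^ n * W v) := mul_le_mul_of_nonneg_left (hFW v hv) h2
        _ = _ := by ring
    rw [intervalIntegral.integral_const_mul] at h1
    have h3 : ∫ v in (0 : ℝ)..1, (1 - v) ^ (3 / 4 : ℝ) * W v =
        ∫ v in (0 : ℝ)..1, (1 - v) ^ (3 / 4 : ℝ) * ((1 / (2 * Real.pi)) * ∫ θ in (0 : ℝ)..(2 * Real.pi), ker2 n t v θ) := by
      refine intervalIntegral.integral_congr fun v hv => ?_
      rw [uIcc_of_le (by norm_num)] at hv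
      show (1 - v) ^ (3 / 4 : ℝ) * W v = (1 - v) ^ (3 / 4 : ℝ) * ((1 / (2 * Real.pi)) * ∫ θ in (0 : ℝ)..(2 * Real.pi), ker2 n t v θ)
      rw [hW1 v hv]
    have h4 := hN2 n t (by omega) ht0 ht1
    rw [← h3] at h4
    calc _ ≤ (t⁻¹) ^ n * ∫ v in (0 : ℝ)..1, (1 - v) ^ (3 / 4 : ℝ) * W v := h1
      _ ≤ (t⁻¹) ^ n * (1.2 * (n : ℝ) ^ (3 / 4 : ℝ) * (1 - t) ^ (-(5 / 4) : ℝ) / t ^ (n - 1)) :=
        mul_le_mul_of_nonneg_left h4 (by positivity)
      _ = 1.2 * (n : ℝ) ^ (3 / 4 : ℝ) * (1 - t) ^ (-(5 / 4) : ℝ) / t ^ (n - 1) * (t⁻¹) ^ n := mul_comm _ _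
      _ ≤ _ := num_t hn ht
  -- the arithmetic-geometric mean
  obtain ⟨c, hc⟩ : ∃ c : ℝ, c = 1.374 * n := ⟨_, rfl⟩
  have hc0 : 0 < c := by rw [hc]; positivity
  have hi : IntervalIntegrable (fun v : ℝ => (1 - v) ^ (-(3 / 4) : ℝ)) volume 0 1 := by
    have h1 := (intervalIntegral.intervalIntegrable_rpow' (a := 0) (b := 1) (r := -(3 / 4)) (by norm_num)).comp_sub_left 1
    simp only [sub_zero, sub_self] at h1
    exact h1.symm
  have hv4 : ∫ v in (0 : ℝ)..1, (1 - v) ^ (-(3 / 4) : ℝ) = 4 := by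
    have h1 := intervalIntegral.integral_comp_sub_left (a := 0) (b := 1) (fun x : ℝ => x ^ (-(3 / 4) : ℝ)) 1
    rw [h1, sub_self, sub_zero, integral_rpow (Or.inl (by norm_num))]
    norm_num
  have h5 : ∫ v in (0 : ℝ)..1, Real.sqrt (F v) ≤
      ∫ v in (0 : ℝ)..1, (c / 2 * (1 - v) ^ (-(3 / 4) : ℝ) + 1 / (2 * c) * ((1 - v) ^ (3 / 4 : ℝ) * F v)) := by
    refine intervalIntegral.integral_mono_on_of_le_Ioo (by norm_num) ((Real.continuous_sqrt.comp hFc).intervalIntegrable _ _)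
      ((hi.const_mul _).add ((continuous_const.mul (hw.mul hFc)).intervalIntegrable _ _)) fun v hv => ?_
    have h0 : 0 < 1 - v := by linarith [hv.2]
    obtain ⟨a, ha⟩ : ∃ a : ℝ, a = (1 - v) ^ (3 / 4 : ℝ) := ⟨_, rfl⟩
    have ha0 : 0 < a := by rw [ha]; exact Real.rpow_pos_of_pos h0 _
    have h6 : (1 - v) ^ (-(3 / 4) : ℝ) = a⁻¹ := by rw [ha, Real.rpow_neg h0.le]
    rw [h6, ← ha]
    obtain ⟨r, hr⟩ : ∃ r : ℝ, r = Real.sqrt (F v) := ⟨_, rfl⟩
    have hr2 : r ^ 2 = F v := by rw [hr]; exact Real.sq_sqrt (hF0 v)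
    rw [← hr, ← hr2]
    have h7 : c / 2 * a⁻¹ + 1 / (2 * c) * (a * r ^ 2) - r = (c - a * r) ^ 2 / (2 * c * a) := by
      field_simp
      ring
    have h8 : 0 ≤ (c - a * r) ^ 2 / (2 * c * a) := by positivity
    linarith
  have hi2 : IntervalIntegrable (fun v : ℝ => 1 / (2 * c) * ((1 - v) ^ (3 / 4 : ℝ) * F v)) volume 0 1 :=
    (continuous_const.mul (hw.mul hFc)).intervalIntegrable _ _
  rw [intervalIntegral.integral_add (hi.const_mul _) hi2,
    intervalIntegral.integral_const_mul, intervalIntegral.integral_const_mul, hv4] at h5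
  have h6 : ∫ v in (0 : ℝ)..1, Real.sqrt (∑ k ∈ Finset.Icc (-(n : ℤ)) n, (QQ n k v) ^ 2) = ∫ v in (0 : ℝ)..1, Real.sqrt (F v) := by
    rw [hF]
  rw [h6]
  refine h5.trans ?_
  have h7 : 1 / (2 * c) * ∫ v in (0 : ℝ)..1, (1 - v) ^ (3 / 4 : ℝ) * F v ≤ 1 / (2 * c) * (7.55 * (n : ℝ) ^ 2) :=
    mul_le_mul_of_nonneg_left hI (by positivity)
  have h8 : 1 / (2 * c) * (7.55 * (n : ℝ) ^ 2) = 7.55 / 2.748 * n := by
    rw [hc]
    field_simp
    ring
  rw [h8] at h7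
  have h9 : c / 2 * 4 = 2.748 * n := by rw [hc]; ring
  rw [h9]
  have h10 : (7.55 : ℝ) / 2.748 ≤ 2.7475 := by norm_num
  nlinarith

end Pool.Agent.Q214.BA
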